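import Mathlib
import Pool.Agent.E8helper84.EH.An

/-!
# Orders of a multiplicative family of functions, with continuations to a connected set
-/

set_option autoImplicit false
set_option linter.unusedSectionVars false

namespace Pool.Agent.E8helper84.AV

open Pool.Agent.H302R2 Pool.Agent.W446.AS Pool.Agent.H541R3.ART Pool.Agent.R389 Filter Topology
open Pool.Agent.E8helper84.EH (Fam near_two hyper_solvable lin_virt IsSol heilbronn_le_two mono_two)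

/-- `U` is connected and contains the half plane `Re s > 3/2` -/
structure Dom (U : Set ℂ) : Prop where
  conn : IsPreconnected U
  half : ∀ s : ℂ, 3 / 2 < s.re → s ∈ U

/-- `Λ` is meromorphic on `U` and equal to `f` on the half plane `Re s > 3/2` -/
def Cont (U : Set ℂ) (f Λ : ℂ → ℂ) : Prop :=
  (∀ s ∈ U, MeromorphicAt Λ s) ∧ ∀ s : ℂ, 3 / 2 < s.re → Λ s = f s

variable {U : Set ℂ}

lemma two_mem (hU : Dom U) : (2 : ℂ) ∈ U := hU.half 2 (by norm_num)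

lemma Cont.ne_top (hU : Dom U) {f Λ : ℂ → ℂ} (h : Cont U f Λ)
    (hf : ∀ s : ℂ, 3 / 2 < s.re → f s ≠ 0) {s₀ : ℂ} (hs₀ : s₀ ∈ U) :
    meromorphicOrderAt Λ s₀ ≠ ⊤ := by
  have hm : MeromorphicOn Λ U := fun s hs => h.1 s hs
  refine hm.meromorphicOrderAt_ne_top_of_isPreconnected hU.conn (two_mem hU) hs₀ ?_
  rw [meromorphicOrderAt_ne_top_iff_eventually_ne_zero (h.1 2 (two_mem hU))]
  filter_upwards [near_two] with s hs
  rw [h.2 s hs]
  exact hf s hs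

lemma Cont.unique (hU : Dom U) {f Λ Λ' : ℂ → ℂ} (h : Cont U f Λ) (h' : Cont U f Λ') {s₀ : ℂ}
    (hs₀ : s₀ ∈ U) : meromorphicOrderAt Λ s₀ = meromorphicOrderAt Λ' s₀ := by
  have hm : MeromorphicOn (Λ - Λ') U := fun s hs => (h.1 s hs).sub (h'.1 s hs)
  have h2 : meromorphicOrderAt (Λ - Λ') s₀ = ⊤ := by
    by_contra hne
    have h3 := hm.meromorphicOrderAt_ne_top_of_isPreconnected hU.conn hs₀ (two_mem hU) hne
    apply h3
    rw [meromorphicOrderAt_eq_top_iff]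
    filter_upwards [near_two] with s hs
    rw [Pi.sub_apply, h.2 s hs, h'.2 s hs, sub_self]
  rw [meromorphicOrderAt_eq_top_iff] at h2
  refine meromorphicOrderAt_congr ?_
  filter_upwards [h2] with s hs
  exact sub_eq_zero.mp hs

section

variable {G : Type} {L : (G → ℂ) → ℂ → ℂ}

lemma Cont.zero (F : Fam G L) : Cont U (L 0) 1 :=
  ⟨fun _ _ => (analyticAt_const (v := (1 : ℂ))).meromorphicAt, fun s hs => (F.zero s hs).symm⟩

lemma Cont.add (F : Fam G L) {a b : G → ℂ} {Λ Λ' : ℂ → ℂ} (h : Cont U (L a) Λ)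
    (h' : Cont U (L b) Λ') : Cont U (L (a + b)) (Λ * Λ') :=
  ⟨fun s hs => (h.1 s hs).mul (h'.1 s hs), fun s hs => by
    rw [Pi.mul_apply, h.2 s hs, h'.2 s hs, F.add a b s hs]⟩

lemma Cont.neg (F : Fam G L) {a : G → ℂ} {Λ : ℂ → ℂ} (h : Cont U (L a) Λ) :
    Cont U (L (-a)) (Λ⁻¹) :=
  ⟨fun s hs => (h.1 s hs).inv, fun s hs => by
    rw [Pi.inv_apply, h.2 s hs, F.neg a s hs]⟩

open Classical in
/-- the order at `s₀` of the continuation -/
noncomputable def ordd (U : Set ℂ) (L : (G → ℂ) → ℂ → ℂ) (s₀ : ℂ) (a : G → ℂ) : ℤ :=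
  if h : ∃ Λ, Cont U (L a) Λ then (meromorphicOrderAt h.choose s₀).untop₀ else 0

lemma ordd_eq (hU : Dom U) (F : Fam G L) {a : G → ℂ} {Λ : ℂ → ℂ} (h : Cont U (L a) Λ) {s₀ : ℂ}
    (hs₀ : s₀ ∈ U) : meromorphicOrderAt Λ s₀ = (ordd U L s₀ a : WithTop ℤ) := by
  classical
  have hex : ∃ Λ, Cont U (L a) Λ := ⟨Λ, h⟩
  rw [ordd, dif_pos hex, h.unique hU hex.choose_spec hs₀]
  exact (WithTop.coe_untop₀_of_ne_top (hex.choose_spec.ne_top hU (F.ne a) hs₀)).symm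

lemma ordd_zero (hU : Dom U) (F : Fam G L) {s₀ : ℂ} (hs₀ : s₀ ∈ U) : ordd U L s₀ 0 = 0 := by
  have h := ordd_eq hU F (Cont.zero F) hs₀
  have h2 : meromorphicOrderAt (1 : ℂ → ℂ) s₀ = 0 := by
    have h3 : AnalyticAt ℂ (1 : ℂ → ℂ) s₀ := analyticAt_const
    rw [h3.meromorphicOrderAt_eq, h3.analyticOrderAt_eq_zero.mpr (by simp)]
    rfl
  rw [h2] at h
  exact_mod_cast h.symm

lemma ordd_add (hU : Dom U) (F : Fam G L) {a b : G → ℂ} (ha : ∃ Λ, Cont U (L a) Λ)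
    (hb : ∃ Λ, Cont U (L b) Λ) {s₀ : ℂ} (hs₀ : s₀ ∈ U) :
    ordd U L s₀ (a + b) = ordd U L s₀ a + ordd U L s₀ b := by
  obtain ⟨Λ, h⟩ := ha
  obtain ⟨Λ', h'⟩ := hb
  have h2 := ordd_eq hU F (Cont.add F h h') hs₀
  rw [meromorphicOrderAt_mul (h.1 s₀ hs₀) (h'.1 s₀ hs₀), ordd_eq hU F h hs₀,
    ordd_eq hU F h' hs₀] at h2
  exact_mod_cast h2.symm

lemma ordd_neg (hU : Dom U) (F : Fam G L) {a : G → ℂ} (ha : ∃ Λ, Cont U (L a) Λ) {s₀ : ℂ}
    (hs₀ : s₀ ∈ U) : ordd U L s₀ (-a) = - ordd U L s₀ a := by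
  obtain ⟨Λ, h⟩ := ha
  have h2 := ordd_eq hU F (Cont.neg F h) hs₀
  rw [meromorphicOrderAt_inv, ordd_eq hU F h hs₀] at h2
  exact_mod_cast h2.symm

end

section

variable {G : Type} [Group G] [Finite G] {L : (G → ℂ) → ℂ → ℂ}

/-- the functions of the linear characters of the solvable subgroups are analytic on `U` -/
def Entire (U : Set ℂ) (G : Type) [Group G] (L : (G → ℂ) → ℂ → ℂ) : Prop :=
  ∀ H : Subgroup G, Group.IsSolvable H → ∀ ψ : H →* ℂˣ, ∃ Λ : ℂ → ℂ, (∀ s ∈ U, AnalyticAt ℂ Λ s) ∧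
    ∀ s : ℂ, 3 / 2 < s.re → Λ s = L (ind H (fun h => ((ψ h : ℂˣ) : ℂ))) s

/-- the class functions with a continuation -/
def contG (U : Set ℂ) (G : Type) (L : (G → ℂ) → ℂ → ℂ) (F : Fam G L) : AddSubgroup (G → ℂ) where
  carrier := {a | ∃ Λ, Cont U (L a) Λ}
  zero_mem' := ⟨1, Cont.zero F⟩
  add_mem' := by
    rintro a b ⟨Λ, h⟩ ⟨Λ', h'⟩
    exact ⟨_, Cont.add F h h'⟩
  neg_mem' := by
    rintro a ⟨Λ, h⟩
    exact ⟨_, Cont.neg F h⟩

lemma virt_cont (F : Fam G L) (hE : Entire U G L) {f : G → ℂ} (hf : Virt f) :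
    ∃ Λ, Cont U (L f) Λ := by
  have h : MonG G ≤ contG U G L F := by
    rw [MonG, AddSubgroup.closure_le]
    rintro f ⟨U, ψ, hU, rfl⟩
    obtain ⟨Λ, h1, h2⟩ := hE U (hyper_solvable hU) ψ
    exact ⟨Λ, fun s hs => (h1 s hs).meromorphicAt, h2⟩
  exact h (virt_mem_mon hf)

/-- the virtual character of the orders at `s₀` -/
noncomputable def th (U : Set ℂ) (G : Type) [Group G] [Finite G] (L : (G → ℂ) → ℂ → ℂ) (s₀ : ℂ) :
    G → ℂ :=
  theta (ordd U L s₀)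

lemma th_virt (s₀ : ℂ) : Virt (th U G L s₀) := theta_virt _

/-- the pairings of the virtual character of the orders are the orders -/
lemma pr_th (hU : Dom U) (F : Fam G L) (hE : Entire U G L) {s₀ : ℂ} (hs₀ : s₀ ∈ U) {f : G → ℂ} (hf : Virt f) :
    pr (th U G L s₀) f = (ordd U L s₀ f : ℂ) := by
  classical
  have : Fintype G := Fintype.ofFinite G
  have hf' : f ∈ AddSubgroup.closure (Irr G) := hf
  induction hf' using AddSubgroup.closure_induction with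
  | mem χ hχ =>
    rw [pr_eq, th, theta_pair _ hχ, mul_comm, mul_assoc, mul_inv_cancel₀ card_ne, mul_one]
  | zero => rw [pr_comm, pr_zero_left, ordd_zero hU F hs₀]; simp
  | add a b ha hb iha ihb =>
    rw [pr_comm, pr_add, pr_comm a, pr_comm b, iha ha, ihb hb,
      ordd_add hU F (virt_cont F hE ha) (virt_cont F hE hb) hs₀]
    push_cast; rfl
  | neg a ha iha =>
    rw [pr_comm, pr_neg, pr_comm a, iha ha, ordd_neg hU F (virt_cont F hE ha) hs₀]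
    push_cast; rfl

lemma lin_virt (H : Subgroup G) (ψ : H →* ℂˣ) : Virt (ind H (fun h => ((ψ h : ℂˣ) : ℂ))) :=
  virt_ind H (AddSubgroup.subset_closure (lin_irr ψ))

/-- multiplicities at linear characters of subgroups -/
lemma th_mult (hU : Dom U) (F : Fam G L) (hE : Entire U G L) {s₀ : ℂ} (hs₀ : s₀ ∈ U) (H : Subgroup G) (ψ : H →* ℂˣ) :
    ∑ᶠ h : H, th U G L s₀ h * (((ψ h)⁻¹ : ℂˣ) : ℂ)
      = (ordd U L s₀ (ind H (fun h => ((ψ h : ℂˣ) : ℂ))) : ℂ) * (Nat.card H : ℂ) := by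
  classical
  have : Fintype H := Fintype.ofFinite H
  have h1 := pr_th hU F hE hs₀ (lin_virt H ψ)
  rw [frob' H _ (fun g x => (th_virt s₀).conj g x)] at h1
  rw [← h1, finsum_eq_sum_of_fintype, ← sum_eq_pr]
  refine Finset.sum_congr rfl fun h _ => ?_
  rw [map_inv]

lemma th_sol (hU : Dom U) (F : Fam G L) (hE : Entire U G L) {s₀ : ℂ} (hs₀ : s₀ ∈ U) : IsSol (th U G L s₀) where
  conj g h := (th_virt s₀).conj g h
  mult H hH ψ := by
    obtain ⟨Λ, h1, h2⟩ := hE H hH ψ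
    have h3 := ordd_eq hU F (a := ind H (fun h => ((ψ h : ℂˣ) : ℂ))) (Λ := Λ)
      ⟨fun s hs => (h1 s hs).meromorphicAt, h2⟩ hs₀
    have h4 := (h1 s₀ hs₀).meromorphicOrderAt_nonneg
    rw [h3] at h4
    have h5 : 0 ≤ ordd U L s₀ (ind H (fun h => ((ψ h : ℂˣ) : ℂ))) := by exact_mod_cast h4
    obtain ⟨n, hn⟩ := Int.eq_ofNat_of_zero_le h5
    refine ⟨n, ?_⟩
    rw [th_mult hU F hE hs₀ H ψ, hn]
    push_cast; rfl

/-- the degree is the order of the function of the trivial subgroup -/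
lemma th_one (hU : Dom U) (F : Fam G L) (hE : Entire U G L) {s₀ : ℂ} (hs₀ : s₀ ∈ U) :
    th U G L s₀ 1 = (ordd U L s₀ (ind (⊥ : Subgroup G) (fun _ => 1)) : ℂ) := by
  classical
  have h1 := th_mult hU F hE hs₀ (⊥ : Subgroup G) 1
  have : Fintype (⊥ : Subgroup G) := Fintype.ofFinite _
  rw [finsum_eq_sum_of_fintype, Fintype.sum_eq_single (1 : (⊥ : Subgroup G))] at h1
  · simpa using h1
  · intro x hx
    exact absurd (Subsingleton.elim x 1) hx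

/-- **No poles at zeros of order at most two of the function of the trivial subgroup.** -/
theorem th_heil (hU : Dom U) (F : Fam G L) (hE : Entire U G L) {s₀ : ℂ} (hs₀ : s₀ ∈ U) {Z : ℂ → ℂ}
    (hZ : Cont U (L (ind (⊥ : Subgroup G) (fun _ => 1))) Z) (h2 : meromorphicOrderAt Z s₀ ≤ 2) :
    ∃ r : ℕ, r ≤ 2 ∧ th U G L s₀ 1 = r ∧ IsHeilbronn (th U G L s₀) := by
  obtain ⟨r, hr⟩ := (th_sol hU F hE hs₀).exists_deg
  have h3 := th_one hU F hE hs₀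
  rw [hr] at h3
  have h4 : ordd U L s₀ (ind (⊥ : Subgroup G) (fun _ => 1)) = (r : ℤ) := by exact_mod_cast h3.symm
  rw [ordd_eq hU F hZ hs₀, h4] at h2
  have h5 : r ≤ 2 := by
    have : ((r : ℤ) : WithTop ℤ) ≤ ((2 : ℤ) : WithTop ℤ) := h2
    exact_mod_cast this
  exact ⟨r, h5, hr, heilbronn_le_two (th_virt s₀) (th_sol hU F hE hs₀) h5 hr⟩

theorem ordd_nonneg (hU : Dom U) (F : Fam G L) (hE : Entire U G L) {s₀ : ℂ} (hs₀ : s₀ ∈ U) {Z : ℂ → ℂ}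
    (hZ : Cont U (L (ind (⊥ : Subgroup G) (fun _ => 1))) Z) (h2 : meromorphicOrderAt Z s₀ ≤ 2)
    (H : Subgroup G) (ψ : H →* ℂˣ) :
    0 ≤ ordd U L s₀ (ind H (fun h => ((ψ h : ℂˣ) : ℂ))) := by
  obtain ⟨r, -, -, hh⟩ := th_heil hU F hE hs₀ hZ h2
  obtain ⟨n, hn⟩ := hh.mult H ψ
  rw [th_mult hU F hE hs₀ H ψ] at hn
  have h3 : (Nat.card H : ℂ) ≠ 0 := card_ne
  have h4 := mul_right_cancel₀ h3 hn
  have h5 : ordd U L s₀ (ind H (fun h => ((ψ h : ℂˣ) : ℂ))) = (n : ℤ) := by exact_mod_cast h4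
  rw [h5]
  exact Int.natCast_nonneg n

theorem ordd_mono (hU : Dom U) (F : Fam G L) (hE : Entire U G L) {s₀ : ℂ} (hs₀ : s₀ ∈ U) {Z : ℂ → ℂ}
    (hZ : Cont U (L (ind (⊥ : Subgroup G) (fun _ => 1))) Z) (h2 : meromorphicOrderAt Z s₀ ≤ 2)
    {H H' : Subgroup G} (hH : H' ≤ H) :
    ordd U L s₀ (ind H (fun _ => 1)) ≤ ordd U L s₀ (ind H' (fun _ => 1)) := by
  obtain ⟨r, hr, h1, hh⟩ := th_heil hU F hE hs₀ hZ h2
  have key : ∀ H : Subgroup G, ∃ n : ℕ, ordd U L s₀ (ind H (fun _ => 1)) = (n : ℤ) ∧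
      ∑ᶠ h : H, th U G L s₀ h = (n : ℂ) * (Nat.card H : ℂ) := by
    intro H
    have h3 := ordd_nonneg hU F hE hs₀ hZ h2 H 1
    have h4 := th_mult hU F hE hs₀ H 1
    simp only [MonoidHom.one_apply, inv_one, Units.val_one, mul_one] at h3 h4
    obtain ⟨n, hn⟩ := Int.eq_ofNat_of_zero_le h3
    refine ⟨n, hn, ?_⟩
    rw [h4, hn]
    push_cast; rfl
  obtain ⟨n, hn, hn2⟩ := key H
  obtain ⟨n', hn', hn2'⟩ := key H'
  rw [hn, hn']
  exact_mod_cast mono_two hh hr h1 hH hn2 hn2'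

end

end Pool.Agent.E8helper84.AV
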