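import Pool.Agent.E8helper84.AV.Irr

/-!
# Analytic continuation of the L-function of an abelian variety to a neighbourhood of `s = 1`

The first assertion of the conjecture of Birch and Swinnerton-Dyer for an abelian variety `A` over `ℚ` is
that `L(A, s)` continues analytically to a neighbourhood of `s = 1`. For abelian surfaces, for instance, it
is not known in general, but they are potentially automorphic (Boxer, Calegari, Gee and Pilloni): there is a
Galois extension `F/ℚ` over which `A` is automorphic. Then the L-functions of `A` over the fields `M` for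
which `F/M` is solvable, and their twists by the characters of `Gal(F/M)`, are entire, by cyclic descent, and
for the other `M`, for instance for `M = ℚ`, they are known to be meromorphic only.

Let `F/ℚ` be any Galois extension, with any Galois group, such that these L-functions are analytic for all
`M` with `F/M` solvable, on a connected set `U ∋ 1` which contains the half plane `Re s > 3/2` (for instance
`U = ℂ`). The theorem says that `L(A, s)` is analytic at `s = 1` if `L(A/F, s)` has a zero of order at most two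
at `s = 1`, and what can be said for all Artin twists, and if the order is three.

The definitions are in `Pool.Agent.E8helper84.AV.Defs` and `Pool.Agent.R389.Defs`.

Credits: for the characters of even and odd degree at zeros of order two the theorem of helper13,
`Pool.Agent.E8helper13.Par.neg_mult`, on virtual characters of degree two is used.
-/

set_option autoImplicit false

namespace Pool.Agent.E8helper84.AV.AnalyticAtOne

open Pool.Agent.E8helper84.AV Filter Topology
open Pool.Agent.R389 (ind ext)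
open Pool.Agent.H541R3.ART (Irr)
open scoped ComplexConjugate

/-- **Analytic continuation to `s = 1`.** Let `A` be an abelian variety over `ℚ` of dimension `g`, `F/ℚ` a
Galois extension with group `G`, `S` a finite set of primes that contains the primes of bad reduction and
the primes that ramify in `F`, `U` a connected set, stable under complex conjugation, that contains the half
plane `Re s > 3/2`. Suppose that for every solvable subgroup `H` of `G`, with fixed field `M`, and every
linear character `ψ` of `H` the L-function of `A` over `M` twisted by `ψ` (without the Euler factors above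
`S`) has an analytic continuation to `U`.

Then for all subgroups `H` of `G` and all irreducible characters `χ` of `H` the functions `L(A/M ⊗ χ, s)` have
meromorphic continuations `Λ H χ` to `U`; `Λ ⊤ 1` is a continuation of `L(A, s)`, and:

1. at each `s₀ ∈ U` (for instance `s₀ = 1`) at which the L-function `Λ ⊥ 1` of `A` over `F` has a zero of order
at most two (or no zero), `Λ H χ` has at most a simple pole, and it has no pole if the degree of `χ` is odd,
for instance if `χ` is linear; the order of the L-function of `A` over `M` increases with the field `M`; and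
for some integer `m ≥ 0` the limit of `(s - s₀)^{-m} L(A, s)` as `s → s₀` exists and is different from zero;

2. at each real `s₀ ∈ U` (for instance `s₀ = 1`) at which `Λ ⊥ 1` has a zero of order at most three all
`Λ H χ` have at most a simple pole, and there is a homomorphism `D : G → {±1}` such that none of the
`Λ H (D|H)` has a pole: there is an integer `d`, a square in `F`, such that the L-functions of the quadratic
twist `A_d` over all subfields of `F`, and those of `A` over all subfields of `F` that contain `√d`, have no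
pole at `s₀`. -/
theorem result (n g : ℕ) (X : Set (MvPolynomial (Fin n) ℤ)) (S : Finset Nat.Primes)
    (α : Nat.Primes → Fin (2 * g) → ℂ) (hα : ∀ p ∉ S, IsFrobenius X g p (α p))
    {F : Type} [Field F] [NumberField F] [IsGalois ℚ F] (Frob : Nat.Primes → (F ≃ₐ[ℚ] F))
    (_hFrob : ∀ p ∉ S, Unramified F p ∧ IsGaloisFrobenius p (Frob p))
    (U : Set ℂ) (hU : IsPreconnected U) (hhalf : ∀ s : ℂ, 3 / 2 < s.re → s ∈ U)
    (hconj : ∀ s ∈ U, conj s ∈ U)
    (haut : ∀ H : Subgroup (F ≃ₐ[ℚ] F), Group.IsSolvable H → ∀ ψ : H →* ℂˣ,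
      ∃ Λ : ℂ → ℂ, (∀ s ∈ U, AnalyticAt ℂ Λ s) ∧ ∀ s : ℂ, 3 / 2 < s.re →
        Λ s = LTwist S α Frob (ind H (fun h => ((ψ h : ℂˣ) : ℂ))) s) :
    ∃ Λ : ∀ H : Subgroup (F ≃ₐ[ℚ] F), (H → ℂ) → ℂ → ℂ,
      (∀ (H : Subgroup (F ≃ₐ[ℚ] F)), ∀ χ ∈ Irr H, (∀ s ∈ U, MeromorphicAt (Λ H χ) s) ∧
        ∀ s : ℂ, 3 / 2 < s.re → Λ H χ s = LTwist S α Frob (ind H χ) s) ∧
      (∀ s : ℂ, 3 / 2 < s.re → Λ ⊤ (fun _ => 1) s = LFun S α s) ∧
      (∀ s₀ ∈ U, meromorphicOrderAt (Λ ⊥ (fun _ => 1)) s₀ ≤ 2 →
        (∀ (H : Subgroup (F ≃ₐ[ℚ] F)), ∀ χ ∈ Irr H, -1 ≤ meromorphicOrderAt (Λ H χ) s₀ ∧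
          ((∀ m : ℕ, χ 1 ≠ 2 * m) → 0 ≤ meromorphicOrderAt (Λ H χ) s₀)) ∧
        (∀ H H' : Subgroup (F ≃ₐ[ℚ] F), H' ≤ H →
          meromorphicOrderAt (Λ H (fun _ => 1)) s₀ ≤ meromorphicOrderAt (Λ H' (fun _ => 1)) s₀) ∧
        ∃ (m : ℕ) (B : ℂ), B ≠ 0 ∧
          Tendsto (fun s => Λ ⊤ (fun _ => 1) s / (s - s₀) ^ m) (𝓝[≠] s₀) (𝓝 B)) ∧
      (∀ s₀ ∈ U, s₀.im = 0 → meromorphicOrderAt (Λ ⊥ (fun _ => 1)) s₀ ≤ 3 →
        (∀ (H : Subgroup (F ≃ₐ[ℚ] F)), ∀ χ ∈ Irr H, -1 ≤ meromorphicOrderAt (Λ H χ) s₀) ∧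
        ∃ D : (F ≃ₐ[ℚ] F) →* ℂˣ, (∀ g, D g = 1 ∨ D g = -1) ∧
          ∀ H : Subgroup (F ≃ₐ[ℚ] F),
            0 ≤ meromorphicOrderAt (Λ H (fun h => ((D h : ℂˣ) : ℂ))) s₀) := by
  classical
  have hα1 : ∀ p ∉ S, ∀ j, ‖α p j‖ = √((p : ℕ) : ℝ) := fun p hp => (hα p hp).2.1
  have hα2 := fun p hp => (hα p hp).1
  have hF : Pool.Agent.E8helper84.EH.Fam (F ≃ₐ[ℚ] F) (LTwist S α Frob) := fam hα1
  have hD : Dom U := ⟨hU, hhalf⟩
  have hE : Entire U (F ≃ₐ[ℚ] F) (LTwist S α Frob) := haut
  have hlc := fun (a : (F ≃ₐ[ℚ] F) → ℂ) (s : ℂ) => LTwist_conj (Frob := Frob) hα2 a s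
  choose! Λ hΛ using fun (H : Subgroup (F ≃ₐ[ℚ] F)) (χ : H → ℂ) (hχ : χ ∈ Irr H) =>
    irr_cont hF hE H hχ
  have h1irr : ∀ H : Subgroup (F ≃ₐ[ℚ] F), (fun _ => 1 : H → ℂ) ∈ Irr H := fun H => by
    have := Pool.Agent.R389.lin_irr (1 : H →* ℂˣ)
    simpa using this
  have htop : (ind (⊤ : Subgroup (F ≃ₐ[ℚ] F)) (fun _ => (1 : ℂ))) = fun _ => 1 := by
    funext g
    have : Fintype (F ≃ₐ[ℚ] F) := Fintype.ofFinite _
    have hc : (Nat.card (F ≃ₐ[ℚ] F) : ℂ) ≠ 0 := by exact_mod_cast Nat.card_pos.ne'
    unfold ind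
    rw [finsum_eq_sum_of_fintype, Finset.sum_congr rfl (fun x _ => by
      rw [show ext (⊤ : Subgroup (F ≃ₐ[ℚ] F)) (fun _ => (1 : ℂ))
        (x⁻¹ * g * x) = 1 from by simp [ext]])]
    rw [Finset.sum_const, Finset.card_univ, nsmul_eq_mul, mul_one, ← Nat.card_eq_fintype_card,
      Subgroup.card_top]
    exact inv_mul_cancel₀ hc
  have hbot := hΛ ⊥ (fun _ => 1) (h1irr ⊥)
  refine ⟨Λ, hΛ, fun s hs => ?_, fun s₀ hs₀ h2 => ⟨fun H χ hχ => ?_, fun H H' hH => ?_, ?_⟩,
    fun s₀ hs₀ hs h3 => ⟨fun H χ hχ => ?_, ?_⟩⟩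
  · rw [LFun_eq (Frob := Frob) hα1 hs, (hΛ ⊤ _ (h1irr ⊤)).2 s hs, htop]
  · have h4 := ordd_irr_two hD hF hE hs₀ hbot h2 H hχ
    rw [ordd_eq hD hF (hΛ H χ hχ) hs₀]
    refine ⟨?_, fun h => by exact_mod_cast h4.2 h⟩
    have h5 : (((-1 : ℤ)) : WithTop ℤ) ≤
        ((ordd U (LTwist S α Frob) s₀ (ind H χ) : ℤ) : WithTop ℤ) := by
      exact_mod_cast h4.1
    exact h5
  · rw [ordd_eq hD hF (hΛ H _ (h1irr H)) hs₀, ordd_eq hD hF (hΛ H' _ (h1irr H')) hs₀]
    exact_mod_cast ordd_mono hD hF hE hs₀ hbot h2 hH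
  · have h3 := (ordd_irr_two hD hF hE hs₀ hbot h2 ⊤ (h1irr ⊤)).2 (fun m hm => by
        have h5 : (1 : ℂ) = ((2 * m : ℕ) : ℂ) := by rw [hm]; push_cast; rfl
        have h6 : 1 = 2 * m := by exact_mod_cast h5
        omega)
    have h4 := ordd_eq hD hF (hΛ ⊤ _ (h1irr ⊤)) hs₀
    obtain ⟨m, hm⟩ := Int.eq_ofNat_of_zero_le h3
    rw [hm] at h4
    rw [meromorphicOrderAt_eq_int_iff ((hΛ ⊤ _ (h1irr ⊤)).1 s₀ hs₀)] at h4
    obtain ⟨f, hf, hf0, he⟩ := h4
    refine ⟨m, f s₀, hf0, ?_⟩
    have h5 : Tendsto f (𝓝[≠] s₀) (𝓝 (f s₀)) := hf.continuousAt.tendsto.mono_left nhdsWithin_le_nhds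
    refine h5.congr' ?_
    filter_upwards [he, self_mem_nhdsWithin] with s h6 h7
    have h8 : s - s₀ ≠ 0 := sub_ne_zero.mpr h7
    rw [h6]
    change f s = ((s - s₀) ^ ((m : ℕ) : ℤ) • f s) / (s - s₀) ^ m
    rw [zpow_natCast, smul_eq_mul, mul_div_assoc, mul_comm, div_mul_cancel₀ _ (pow_ne_zero m h8)]
  · rw [ordd_eq hD hF (hΛ H χ hχ) hs₀]
    have h4 := (ordd_irr_three hD hconj hF hE hlc hs₀ hs hbot h3).1 H χ hχ
    have h5 : (((-1 : ℤ)) : WithTop ℤ) ≤
        ((ordd U (LTwist S α Frob) s₀ (ind H χ) : ℤ) : WithTop ℤ) := by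
      exact_mod_cast h4
    exact h5
  · obtain ⟨-, D, hDs, hD2⟩ := ordd_irr_three hD hconj hF hE hlc hs₀ hs hbot h3
    refine ⟨D, hDs, fun H => ?_⟩
    rw [ordd_eq hD hF (hΛ H (fun h => ((D h : ℂˣ) : ℂ))
      (Pool.Agent.R389.lin_irr (D.comp H.subtype))) hs₀]
    exact_mod_cast hD2 H

end Pool.Agent.E8helper84.AV.AnalyticAtOne

/- The claim of this result when it was handed in (moved out of `Results` on the lead's decision, same method as
`MP_7ed9c3_nt/DoubleZerosTopFieldH84`).

Proves: Partial, on the first assertion of Q1 (continuation to s=1). A/Q abelian variety, F/Q Galois, any group G, S finite, containing the bad primes and those ramified in F; U connected, stable under conjugation, containing Re s>3/2. Hypothesis (true with U=C if A is automorphic over F): for M with F/M solvable and linear characters psi of Gal(F/M), L(A/M x psi, s) continues analytically to U. Then L(A/M x chi, s), all M in F and chi in Irr Gal(F/M), are meromorphic on U; where L(A/F,s) has order <= 2 (e.g. s=1)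 poles are at most simple, none for chi of odd degree (e.g. chi=1, L(A,s)), the order of L(A/M,s) increases with M, and (s-s0)^-m L(A,s) has a nonzero limit, some m>=0; at real points of order <= 3 poles are at most simple and for some D: G -> {1,-1} there is none for L(A/M x D, s).
Definitions: A by homogeneous equations X and Frobenius eigenvalues (IsFrobenius: point counts over F_(p^e), absolute value sqrt p); LFun: Euler product over p not in S; LTwist: its twist by a function on G (factors at S always omitted); ind: induced function.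
Relation: Nothing else assumed. Same method as our MP_7ed9c3/DoubleZerosTopFieldH84 (elliptic curves over K). Simple zeros: Heilbronn characters (Foote, Murty & Murty); double zeros: Foote-Wales for Dedekind zeta, solvable groups. Hypothesis known e.g. for abelian surfaces and suitable F (Boxer-Calegari-Gee-Pilloni).
-/
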