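import Mathlib
import Pool.Agent.R389.Defs

/-!
# Definitions: an abelian variety over `ℚ` and its twists by Galois characters

`F/ℚ` is a finite Galois extension with group `G = F ≃ₐ[ℚ] F`.
`Pool.Agent.R389.ind H f` is the function on `G` induced from the function `f` on the subgroup `H`.
-/

set_option autoImplicit false

namespace Pool.Agent.E8helper84.AV

open NumberField IsDedekindDomain

section
variable {n : ℕ}

/-- The number of the points with coordinates in the field with `p^e` elements of the projective scheme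
`A` over `ℤ` defined by the homogeneous polynomials `X`: the number of the nonzero solutions divided by
`p^e - 1`. -/
noncomputable def points (X : Set (MvPolynomial (Fin n) ℤ)) (p : Nat.Primes) (e : ℕ) : ℝ :=
  haveI : Fact (p : ℕ).Prime := ⟨p.2⟩
  (Nat.card {u : Fin n → GaloisField (p : ℕ) e // u ≠ 0 ∧ ∀ f ∈ X, MvPolynomial.aeval u f = 0} : ℝ) /
    (((p : ℕ) : ℝ) ^ e - 1)

/-- `α_1, …, α_{2g}` are the eigenvalues of the geometric Frobenius at `p` on the first cohomology of the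
abelian variety `A` of dimension `g` defined by `X`: they are the zeros of a polynomial with integral
coefficients, of absolute value `p^{1/2}`, and the number of the points of `A` over the field with `p^e`
elements is `∏ (1 - α_j^e)` for every `e ≥ 1`. By Weil this holds at all primes of good reduction. -/
def IsFrobenius (X : Set (MvPolynomial (Fin n) ℤ)) (g : ℕ) (p : Nat.Primes) (α : Fin (2 * g) → ℂ) :
    Prop :=
  (∃ P : Polynomial ℤ, P.map (Int.castRingHom ℂ) = ∏ j, (Polynomial.X - Polynomial.C (α j))) ∧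
    (∀ j, ‖α j‖ = √((p : ℕ) : ℝ)) ∧ ∀ e : ℕ, e ≠ 0 → (points X p e : ℂ) = ∏ j, (1 - α j ^ e)

end

open Classical in
/-- `L(A, s) = ∏_{p ∉ S} ∏_j (1 - α_{p,j} p^{-s})⁻¹`. -/
noncomputable def LFun {N : ℕ} (S : Finset Nat.Primes) (α : Nat.Primes → Fin N → ℂ) (s : ℂ) : ℂ :=
  ∏' p : Nat.Primes, if p ∈ S then 1 else ∏ j, (1 - α p j * ((p : ℕ) : ℂ) ^ (-s))⁻¹

section
variable (F : Type) [Field F] [NumberField F]

/-- `p` is unramified in `F`. -/
def Unramified (p : Nat.Primes) : Prop :=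
  ∀ w : HeightOneSpectrum (𝓞 F), ((p : ℕ) : 𝓞 F) ∈ w.asIdeal → ((p : ℕ) : 𝓞 F) ∉ w.asIdeal ^ 2

variable {F}

/-- `σ` is a Frobenius element of the Galois group of `F/ℚ` at `p`: `σ x ≡ x^p` modulo some prime `w` of
`F` above `p`. -/
def IsGaloisFrobenius (p : Nat.Primes) (σ : F ≃ₐ[ℚ] F) : Prop :=
  ∃ w : HeightOneSpectrum (𝓞 F), ((p : ℕ) : 𝓞 F) ∈ w.asIdeal ∧
    ∀ x y : 𝓞 F, (y : F) = σ x → y - x ^ (p : ℕ) ∈ w.asIdeal

/-- The L-function of `A` twisted by the character `χ` of `Gal(F/ℚ)`, without the Euler factors at the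
primes in `S`, for `Re s > 3/2`:
`log L(A ⊗ χ, s) = ∑_{p ∉ S} ∑_{k ≥ 1} (∑_j α_{p,j}^k) χ(Frob_p^k) / (k p^{ks})`. If `χ` is the character
induced from a linear character `ψ` of the subgroup `H = Gal(F/M)`, then this is the L-function of `A`
over `M` twisted by `ψ`; it is `L(A/M, s)` if `ψ = 1`. -/
noncomputable def LTwist {N : ℕ} (S : Finset Nat.Primes) (α : Nat.Primes → Fin N → ℂ)
    (Frob : Nat.Primes → (F ≃ₐ[ℚ] F)) (χ : (F ≃ₐ[ℚ] F) → ℂ) (s : ℂ) : ℂ :=
  Complex.exp (∑' p : {p : Nat.Primes // p ∉ S}, ∑' k : ℕ,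
    (∑ j, α p.1 j ^ (k + 1)) * χ (Frob p.1 ^ (k + 1)) / (k + 1) *
      ((p.1 : ℕ) : ℂ) ^ (-((k + 1) * s)))

end

end Pool.Agent.E8helper84.AV
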