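import Mathlib
import Pool.Agent.E8helper84.AV.Defs
import Pool.Agent.E8helper84.AV.An

/-!
# Convergence of the twisted L-functions, and the Euler product
-/

set_option autoImplicit false
set_option linter.unusedSectionVars false

namespace Pool.Agent.E8helper84.AV

open NumberField IsDedekindDomain Filter Topology Complex
open Pool.Agent.E8helper84.EH (Fam)

section
variable {N : ℕ} {S : Finset Nat.Primes} {α : Nat.Primes → Fin N → ℂ}

lemma pw_norm (p : Nat.Primes) (s : ℂ) : ‖((p : ℕ) : ℂ) ^ (-s)‖ = ((p : ℕ) : ℝ) ^ (-s.re) := by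
  rw [Complex.norm_natCast_cpow_of_pos p.2.pos]
  simp

lemma pw_pow (p : Nat.Primes) (s : ℂ) (k : ℕ) :
    ((p : ℕ) : ℂ) ^ (-(((k : ℂ) + 1) * s)) = (((p : ℕ) : ℂ) ^ (-s)) ^ (k + 1) := by
  rw [← Complex.cpow_nat_mul]
  congr 1
  push_cast
  ring

/-- the terms of the logarithm -/
noncomputable def term (α : Nat.Primes → Fin N → ℂ) (p : Nat.Primes) (c : ℕ → ℂ) (s : ℂ) (k : ℕ) : ℂ :=
  (∑ j, α p j ^ (k + 1)) * c (k + 1) / (k + 1) * ((p : ℕ) : ℂ) ^ (-((k + 1) * s))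

/-- the size of one eigenvalue times the power -/
noncomputable def xx (p : Nat.Primes) (s : ℂ) : ℝ := ((p : ℕ) : ℝ) ^ (-(s.re - 1 / 2))

lemma xx_pos (p : Nat.Primes) (s : ℂ) : 0 < xx p s :=
  Real.rpow_pos_of_pos (by exact_mod_cast p.2.pos) _

lemma xx_le (p : Nat.Primes) {s : ℂ} (hs : 3 / 2 < s.re) : xx p s ≤ 1 / 2 := by
  have h2 : (2 : ℝ) ≤ ((p : ℕ) : ℝ) := by exact_mod_cast p.2.two_le
  have h1 : (1 : ℝ) ≤ ((p : ℕ) : ℝ) := by linarith
  have h3 : xx p s ≤ ((p : ℕ) : ℝ) ^ (-1 : ℝ) :=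
    Real.rpow_le_rpow_of_exponent_le h1 (by linarith)
  rw [Real.rpow_neg_one] at h3
  refine h3.trans ?_
  rw [one_div]
  exact inv_anti₀ (by norm_num) h2

lemma size {p : Nat.Primes} {a : ℂ} (ha : ‖a‖ = √((p : ℕ) : ℝ)) (s : ℂ) :
    ‖a * ((p : ℕ) : ℂ) ^ (-s)‖ = xx p s := by
  have hp : (0 : ℝ) < ((p : ℕ) : ℝ) := by exact_mod_cast p.2.pos
  rw [norm_mul, ha, pw_norm, Real.sqrt_eq_rpow, ← Real.rpow_add hp, xx]
  congr 1
  ring

lemma term_bound {p : Nat.Primes} (hα : ∀ j, ‖α p j‖ = √((p : ℕ) : ℝ)) {c : ℕ → ℂ} {C : ℝ}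
    (hC : ∀ k, ‖c k‖ ≤ C) (s : ℂ) (k : ℕ) : ‖term α p c s k‖ ≤ N * C * xx p s ^ (k + 1) := by
  have hC0 : 0 ≤ C := (norm_nonneg (c 0)).trans (hC 0)
  have h1 : term α p c s k = (∑ j, (α p j * ((p : ℕ) : ℂ) ^ (-s)) ^ (k + 1)) * (c (k + 1) / (k + 1)) := by
    unfold term
    rw [pw_pow, Finset.sum_mul, Finset.sum_div, Finset.sum_mul, Finset.sum_mul]
    refine Finset.sum_congr rfl fun j _ => ?_
    rw [mul_pow]
    ring
  rw [h1, norm_mul]
  have h2 : ‖∑ j, (α p j * ((p : ℕ) : ℂ) ^ (-s)) ^ (k + 1)‖ ≤ N * xx p s ^ (k + 1) := by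
    refine (norm_sum_le _ _).trans ?_
    rw [Finset.sum_congr rfl (fun j _ => by rw [norm_pow, size (hα j) s])]
    simp
  have h3 : ‖c (k + 1) / ((k : ℂ) + 1)‖ ≤ C := by
    rw [norm_div]
    have h4 : (1 : ℝ) ≤ ‖((k : ℂ) + 1)‖ := by
      have : ((k : ℂ) + 1) = ((k + 1 : ℕ) : ℂ) := by push_cast; rfl
      rw [this, Complex.norm_natCast]
      exact_mod_cast Nat.succ_le_succ (Nat.zero_le k)
    exact (div_le_self (norm_nonneg _) h4).trans (hC _)
  calc _ ≤ (N * xx p s ^ (k + 1)) * C :=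
        mul_le_mul h2 h3 (norm_nonneg _) (by have := xx_pos p s; positivity)
    _ = N * C * xx p s ^ (k + 1) := by ring

lemma geo {p : Nat.Primes} {s : ℂ} (hs : 3 / 2 < s.re) (A : ℝ) :
    HasSum (fun k : ℕ => A * xx p s ^ (k + 1)) (A * (xx p s * (1 - xx p s)⁻¹)) := by
  have h1 := xx_pos p s
  have h2 := xx_le p hs
  have h3 := (hasSum_geometric_of_lt_one h1.le (by linarith)).mul_left (xx p s)
  refine (h3.congr_fun ?_).mul_left A |> fun h => h
  intro k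
  ring

lemma term_summable {p : Nat.Primes} (hα : ∀ j, ‖α p j‖ = √((p : ℕ) : ℝ)) {c : ℕ → ℂ} {C : ℝ}
    (hC : ∀ k, ‖c k‖ ≤ C) {s : ℂ} (hs : 3 / 2 < s.re) : Summable (term α p c s) :=
  Summable.of_norm_bounded (geo hs _).summable (term_bound hα hC s)

lemma inner_bound {p : Nat.Primes} (hα : ∀ j, ‖α p j‖ = √((p : ℕ) : ℝ)) {c : ℕ → ℂ} {C : ℝ}
    (hC : ∀ k, ‖c k‖ ≤ C) {s : ℂ} (hs : 3 / 2 < s.re) :
    ‖∑' k, term α p c s k‖ ≤ 2 * (N * C) * xx p s := by
  have hC0 : 0 ≤ C := (norm_nonneg (c 0)).trans (hC 0)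
  have h1 := xx_pos p s
  have h2 := xx_le p hs
  refine (tsum_of_norm_bounded (geo hs _) (term_bound hα hC s)).trans ?_
  have h3 : (1 - xx p s)⁻¹ ≤ 2 := by
    rw [inv_le_comm₀ (by linarith) (by norm_num)]
    linarith
  calc N * C * (xx p s * (1 - xx p s)⁻¹) ≤ N * C * (xx p s * 2) := by gcongr
    _ = 2 * (N * C) * xx p s := by ring

lemma outer_summable (hα : ∀ p ∉ S, ∀ j, ‖α p j‖ = √((p : ℕ) : ℝ)) {c : Nat.Primes → ℕ → ℂ} {C : ℝ}
    (hC : ∀ p k, ‖c p k‖ ≤ C) {s : ℂ} (hs : 3 / 2 < s.re) :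
    Summable (fun p : {p : Nat.Primes // p ∉ S} => ∑' k, term α p.1 (c p.1) s k) := by
  have h1 : Summable fun p : Nat.Primes => xx p s := by
    have := (Nat.Primes.summable_rpow (r := -(s.re - 1 / 2))).mpr (by linarith)
    exact this
  refine Summable.of_norm_bounded ((h1.subtype _).mul_left (2 * (N * C))) fun p => ?_
  exact inner_bound (hα p.1 p.2) (hC p.1) hs

variable {F : Type} [Field F] [NumberField F] {Frob : Nat.Primes → (F ≃ₐ[ℚ] F)}

lemma LTwist_eq (χ : (F ≃ₐ[ℚ] F) → ℂ) (s : ℂ) :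
    LTwist S α Frob χ s = cexp (∑' p : {p : Nat.Primes // p ∉ S},
      ∑' k, term α p.1 (fun k => χ (Frob p.1 ^ k)) s k) := rfl

lemma exists_bound {G : Type*} [Finite G] (χ : G → ℂ) : ∃ C : ℝ, ∀ g, ‖χ g‖ ≤ C := by
  obtain ⟨C, hC⟩ := (Set.finite_range fun g => ‖χ g‖).bddAbove
  exact ⟨C, fun g => hC ⟨g, rfl⟩⟩

/-- the family of the twisted L-functions -/
lemma fam (hα : ∀ p ∉ S, ∀ j, ‖α p j‖ = √((p : ℕ) : ℝ)) :
    Fam (F ≃ₐ[ℚ] F) (LTwist S α Frob) where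
  add a b s hs := by
    obtain ⟨A, hA⟩ := exists_bound a
    obtain ⟨B, hB⟩ := exists_bound b
    rw [LTwist_eq, LTwist_eq, LTwist_eq, ← Complex.exp_add]
    congr 1
    rw [← (outer_summable hα (c := fun p k => a (Frob p ^ k)) (fun p k => hA _) hs).tsum_add
      (outer_summable hα (c := fun p k => b (Frob p ^ k)) (fun p k => hB _) hs)]
    refine tsum_congr fun p => ?_
    rw [← (term_summable (hα p.1 p.2) (c := fun k => a (Frob p.1 ^ k)) (fun k => hA _) hs).tsum_add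
      (term_summable (hα p.1 p.2) (c := fun k => b (Frob p.1 ^ k)) (fun k => hB _) hs)]
    refine tsum_congr fun k => ?_
    unfold term
    simp only [Pi.add_apply]
    ring
  ne a s _ := Complex.exp_ne_zero _

/-- one Euler factor -/
lemma factor {p : Nat.Primes} (hα : ∀ j, ‖α p j‖ = √((p : ℕ) : ℝ)) {s : ℂ} (hs : 3 / 2 < s.re) :
    cexp (∑' k, term α p (fun _ => 1) s k) = ∏ j, (1 - α p j * ((p : ℕ) : ℂ) ^ (-s))⁻¹ := by
  have hlt : ∀ j, ‖α p j * ((p : ℕ) : ℂ) ^ (-s)‖ < 1 := fun j => by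
    rw [size (hα j) s]
    have := xx_le p hs
    linarith
  have h1 : HasSum (fun k : ℕ => ∑ j, (α p j * ((p : ℕ) : ℂ) ^ (-s)) ^ (k + 1) / ((k : ℂ) + 1))
      (∑ j, -Complex.log (1 - α p j * ((p : ℕ) : ℂ) ^ (-s))) :=
    hasSum_sum fun j _ => Complex.hasSum_taylorSeries_neg_log' (hlt j)
  have h2 : ∑' k, term α p (fun _ => 1) s k
      = ∑ j, -Complex.log (1 - α p j * ((p : ℕ) : ℂ) ^ (-s)) := by
    rw [← h1.tsum_eq]
    refine tsum_congr fun k => ?_
    unfold term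
    rw [pw_pow, Finset.sum_mul, Finset.sum_div, Finset.sum_mul]
    refine Finset.sum_congr rfl fun j _ => ?_
    rw [mul_pow]
    ring
  rw [h2, Complex.exp_sum]
  refine Finset.prod_congr rfl fun j _ => ?_
  have h3 : 1 - α p j * ((p : ℕ) : ℂ) ^ (-s) ≠ 0 := by
    intro h
    have h4 : α p j * ((p : ℕ) : ℂ) ^ (-s) = 1 := (sub_eq_zero.mp h).symm
    have h5 := hlt j
    rw [h4, norm_one] at h5
    exact lt_irrefl _ h5
  rw [Complex.exp_neg, Complex.exp_log h3]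

/-- the Euler product -/
lemma LFun_eq (hα : ∀ p ∉ S, ∀ j, ‖α p j‖ = √((p : ℕ) : ℝ)) {s : ℂ} (hs : 3 / 2 < s.re) :
    LFun S α s = LTwist S α Frob (fun _ => 1) s := by
  classical
  have h1 := (outer_summable hα (c := fun p k => (1 : ℂ)) (C := 1) (fun p k => by simp) hs).hasSum
  have h3 := h1.cexp
  have h2 : HasProd (fun p : {p : Nat.Primes // p ∉ S} =>
      (fun p : Nat.Primes => if p ∈ S then (1 : ℂ) else ∏ j, (1 - α p j * ((p : ℕ) : ℂ) ^ (-s))⁻¹) p.1)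
      (LTwist S α Frob (fun _ => 1) s) := by
    refine h3.congr_fun ?_ |> fun h => h
    intro p
    simp only [Function.comp_apply]
    rw [if_neg p.2]
    exact (factor (hα p.1 p.2) hs).symm
  have h4 : HasProd (fun p : Nat.Primes => if p ∈ S then (1 : ℂ)
      else ∏ j, (1 - α p j * ((p : ℕ) : ℂ) ^ (-s))⁻¹) (LTwist S α Frob (fun _ => 1) s) := by
    rw [← hasProd_subtype_iff_of_mulSupport_subset (s := {p : Nat.Primes | p ∉ S})]
    · exact h2
    · intro p hp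
      by_contra h
      apply hp
      have : p ∈ S := by simpa using h
      simp [this]
  exact h4.tprod_eq

lemma power_sum_conj {p : Nat.Primes}
    (hP : ∃ P : Polynomial ℤ, P.map (Int.castRingHom ℂ) = ∏ j, (Polynomial.X - Polynomial.C (α p j)))
    (k : ℕ) : (starRingEnd ℂ) (∑ j, α p j ^ k) = ∑ j, α p j ^ k := by
  obtain ⟨P, hP⟩ := hP
  have h1 : (∏ j, (Polynomial.X - Polynomial.C (α p j))).map (starRingEnd ℂ)
      = ∏ j, (Polynomial.X - Polynomial.C (α p j)) := by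
    rw [← hP, Polynomial.map_map]
    congr 1
    exact RingHom.ext_int _ _
  have h2 : (∏ j, (Polynomial.X - Polynomial.C ((starRingEnd ℂ) (α p j))))
      = ∏ j, (Polynomial.X - Polynomial.C (α p j)) := by
    rw [← h1, Polynomial.map_prod]
    simp
  have h3 := congrArg Polynomial.roots h2
  have h4 : ∀ a : Fin N → ℂ, (∏ j, (Polynomial.X - Polynomial.C (a j))).roots
      = Finset.univ.val.map a := by
    intro a
    have : (∏ j, (Polynomial.X - Polynomial.C (a j)))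
        = ((Finset.univ.val.map a).map fun z => Polynomial.X - Polynomial.C z).prod := by
      rw [Multiset.map_map]
      rfl
    rw [this, Polynomial.roots_multiset_prod_X_sub_C]
  rw [h4, h4] at h3
  have h5 := congrArg (fun m : Multiset ℂ => (m.map fun z => z ^ k).sum) h3
  simp only [Multiset.map_map, Function.comp_def] at h5
  rw [map_sum]
  simp only [map_pow]
  exact h5

end

end Pool.Agent.E8helper84.AV
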