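import Mathlib
import Pool.Agent.E8helper84.AV.LS
import Pool.Agent.E8helper84.EH.Final

/-!
# Real points
-/

set_option autoImplicit false
set_option linter.unusedSectionVars false

namespace Pool.Agent.E8helper84.AV

open Pool.Agent.H302R2 Pool.Agent.W446.AS Pool.Agent.H541R3.ART Pool.Agent.R389 Filter Topology
open Pool.Agent.E8helper84.EH (Fam near_two lin_virt IsSol inv_virt virt_star real_three')
open scoped ComplexConjugate

section

variable {U : Set ℂ} {G : Type} {L : (G → ℂ) → ℂ → ℂ}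

lemma cont_conj (hconj : ∀ s ∈ U, conj s ∈ U)
    (hc : ∀ (a : G → ℂ) (s : ℂ), L (fun g => conj (a g)) (conj s) = conj (L a s))
    {a : G → ℂ} {Λ : ℂ → ℂ} (h : Cont U (L a) Λ) :
    Cont U (L (fun g => conj (a g))) (EH.CC.cc Λ) := by
  refine ⟨fun s hs => ?_, fun s hs => ?_⟩
  · have h1 := EH.CC.meromorphicAt_cc (h.1 (conj s) (hconj s hs))
    rwa [Complex.conj_conj] at h1
  · have h1 := hc a (conj s)
    rw [Complex.conj_conj] at h1
    rw [h1, EH.CC.cc, h.2 _ (by rwa [Complex.conj_re])]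

lemma ordd_conj (hU : Dom U) (hconj : ∀ s ∈ U, conj s ∈ U) (F : Fam G L)
    (hc : ∀ (a : G → ℂ) (s : ℂ), L (fun g => conj (a g)) (conj s) = conj (L a s))
    {a : G → ℂ} (ha : ∃ Λ, Cont U (L a) Λ) {s₀ : ℂ} (hs₀ : s₀ ∈ U) (hs : s₀.im = 0) :
    ordd U L s₀ (fun g => conj (a g)) = ordd U L s₀ a := by
  obtain ⟨Λ, h⟩ := ha
  have h1 := ordd_eq hU F (cont_conj hconj hc h) hs₀
  have h2 := EH.CC.order_cc (h.1 s₀ hs₀) (ordd_eq hU F h hs₀)
  rw [Complex.conj_eq_iff_im.mpr hs, h1] at h2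
  exact_mod_cast h2

variable [Group G] [Finite G]

/-- at real points the virtual character of the orders is real -/
lemma th_real (hU : Dom U) (hconj : ∀ s ∈ U, conj s ∈ U) (F : Fam G L) (hE : Entire U G L)
    (hc : ∀ (a : G → ℂ) (s : ℂ), L (fun g => conj (a g)) (conj s) = conj (L a s))
    {s₀ : ℂ} (hs₀ : s₀ ∈ U) (hs : s₀.im = 0) (g : G) : th U G L s₀ g⁻¹ = th U G L s₀ g := by
  classical
  have : Fintype G := Fintype.ofFinite G
  have hv := th_virt (U := U) (G := G) (L := L) s₀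
  have hv' := inv_virt hv
  have h1 := hv'.expand g
  have h2 := hv.expand g
  change th U G L s₀ g⁻¹ = _ at h1
  rw [h1, h2]
  refine Finset.sum_congr rfl fun χ hχ => ?_
  congr 1
  have hχ' : Virt χ := AddSubgroup.subset_closure (mem_irrF.mp hχ)
  have h3 : pr (fun g => th U G L s₀ g⁻¹) χ = pr (th U G L s₀) (fun g => χ g⁻¹) := by
    rw [pr_eq, pr_eq]
    congr 1
    rw [← Equiv.sum_comp (Equiv.inv G)]
    refine Finset.sum_congr rfl fun x _ => ?_
    simp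
  rw [h3, pr_th hU F hE hs₀ (inv_virt hχ'), pr_th hU F hE hs₀ hχ']
  have h4 : (fun g => χ g⁻¹) = fun g => conj (χ g) := funext fun g => virt_star hχ' g
  rw [h4, ordd_conj hU hconj F hc (virt_cont F hE hχ') hs₀ hs]

/-- **Real zeros of order at most three.** -/
theorem real_points (hU : Dom U) (hconj : ∀ s ∈ U, conj s ∈ U) (F : Fam G L) (hE : Entire U G L)
    (hc : ∀ (a : G → ℂ) (s : ℂ), L (fun g => conj (a g)) (conj s) = conj (L a s))
    {s₀ : ℂ} (hs₀ : s₀ ∈ U) (hs : s₀.im = 0) {Z : ℂ → ℂ}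
    (hZ : Cont U (L (ind (⊥ : Subgroup G) (fun _ => 1))) Z) (h3 : meromorphicOrderAt Z s₀ ≤ 3) :
    (∃ D : G →* ℂˣ, (∀ g, D g = 1 ∨ D g = -1) ∧ ∀ H : Subgroup G,
      0 ≤ ordd U L s₀ (ind H (fun h => ((D h : ℂˣ) : ℂ)))) ∧
    ∀ (H : Subgroup G) (ψ : H →* ℂˣ), -1 ≤ ordd U L s₀ (ind H (fun h => ((ψ h : ℂˣ) : ℂ))) := by
  classical
  obtain ⟨r, hr⟩ := (th_sol hU F hE hs₀).exists_deg
  have h4 := th_one hU F hE hs₀
  rw [hr] at h4
  have h5 : ordd U L s₀ (ind (⊥ : Subgroup G) (fun _ => 1)) = (r : ℤ) := by exact_mod_cast h4.symm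
  have h6 : r ≤ 3 := by
    rw [ordd_eq hU F hZ hs₀, h5] at h3
    have : ((r : ℤ) : WithTop ℤ) ≤ ((3 : ℤ) : WithTop ℤ) := h3
    exact_mod_cast this
  by_cases h7 : r ≤ 2
  · have h8 : meromorphicOrderAt Z s₀ ≤ 2 := by
      rw [ordd_eq hU F hZ hs₀, h5]
      have : ((r : ℤ) : WithTop ℤ) ≤ ((2 : ℤ) : WithTop ℤ) := by exact_mod_cast h7
      exact this
    have h9 := ordd_nonneg hU F hE hs₀ hZ h8
    refine ⟨⟨1, fun g => Or.inl rfl, fun H => ?_⟩, fun H ψ => ?_⟩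
    · simpa using h9 H 1
    · have := h9 H ψ
      omega
  · have h8 : r = 3 := by omega
    subst h8
    obtain ⟨D, hD, hD2, hD3⟩ := real_three' (th_virt s₀) (th_sol hU F hE hs₀) (by simpa using hr)
      (th_real hU hconj F hE hc hs₀ hs)
    refine ⟨⟨D, hD, fun H => ?_⟩, fun H ψ => ?_⟩
    · apply hD2 H
      exact th_mult hU F hE hs₀ H (D.comp H.subtype)
    · apply hD3 H ψ
      exact th_mult hU F hE hs₀ H ψ

end

section

variable {N : ℕ} {S : Finset Nat.Primes} {α : Nat.Primes → Fin N → ℂ}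
variable {F : Type} [Field F] [NumberField F] {Frob : Nat.Primes → (F ≃ₐ[ℚ] F)}

lemma LTwist_conj (hα : ∀ p ∉ S, ∃ P : Polynomial ℤ, P.map (Int.castRingHom ℂ)
    = ∏ j, (Polynomial.X - Polynomial.C (α p j))) (χ : (F ≃ₐ[ℚ] F) → ℂ) (s : ℂ) :
    LTwist S α Frob (fun g => conj (χ g)) (conj s) = conj (LTwist S α Frob χ s) := by
  unfold LTwist
  rw [← Complex.exp_conj, Complex.conj_tsum]
  congr 1
  refine tsum_congr fun p => ?_
  rw [Complex.conj_tsum]
  refine tsum_congr fun k => ?_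
  have h1 : ((p.1 : ℕ) : ℂ) ^ (-(((k : ℂ) + 1) * conj s))
      = conj (((p.1 : ℕ) : ℂ) ^ (-(((k : ℂ) + 1) * s))) := by
    have h2 := Complex.cpow_conj ((p.1 : ℕ) : ℂ) (-(((k : ℂ) + 1) * s)) (by
      rw [Complex.natCast_arg]; exact Real.pi_pos.ne)
    rw [Complex.conj_natCast] at h2
    rw [← h2]
    congr 1
    simp
  rw [h1, map_mul, map_div₀, map_mul, power_sum_conj (hα p.1 p.2)]
  simp

end

end Pool.Agent.E8helper84.AV
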