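import Mathlib
import Pool.Agent.E8helper84.AV.Final
import Pool.Agent.E8helper84.EH.IrrMult

/-!
# Orders for all irreducible characters
-/

set_option autoImplicit false
set_option linter.unusedSectionVars false

namespace Pool.Agent.E8helper84.AV

open Pool.Agent.H302R2 Pool.Agent.W446.AS Pool.Agent.H541R3.ART Pool.Agent.R389 Filter Topology
open Pool.Agent.E8helper84.EH (Fam near_two lin_virt IsSol inv_virt virt_star irr_two irr_three)
open scoped ComplexConjugate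

section

variable {U : Set ℂ} {G : Type} [Group G] [Finite G] {L : (G → ℂ) → ℂ → ℂ}

lemma irr_cont (F : Fam G L) (hE : Entire U G L) (H : Subgroup G) {χ : H → ℂ} (hχ : χ ∈ Irr H) :
    ∃ Λ, Cont U (L (ind H χ)) Λ :=
  virt_cont F hE (virt_ind H (AddSubgroup.subset_closure hχ))

lemma pr_res (hU : Dom U) (F : Fam G L) (hE : Entire U G L) {s₀ : ℂ} (hs₀ : s₀ ∈ U) (H : Subgroup G)
    {χ : H → ℂ} (hχ : χ ∈ Irr H) :
    pr (fun h : H => th U G L s₀ h) χ = (ordd U L s₀ (ind H χ) : ℂ) := by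
  rw [← frob' H χ (fun g x => (th_virt s₀).conj g x), pr_th hU F hE hs₀
    (virt_ind H (AddSubgroup.subset_closure hχ))]

/-- **Zeros of order at most two, all irreducible characters.** -/
theorem ordd_irr_two (hU : Dom U) (F : Fam G L) (hE : Entire U G L) {s₀ : ℂ} (hs₀ : s₀ ∈ U)
    {Z : ℂ → ℂ} (hZ : Cont U (L (ind (⊥ : Subgroup G) (fun _ => 1))) Z)
    (h2 : meromorphicOrderAt Z s₀ ≤ 2) (H : Subgroup G) {χ : H → ℂ} (hχ : χ ∈ Irr H) :
    -1 ≤ ordd U L s₀ (ind H χ) ∧ ((∀ m : ℕ, χ 1 ≠ 2 * m) → 0 ≤ ordd U L s₀ (ind H χ)) := by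
  obtain ⟨r, hr, h1, -⟩ := th_heil hU F hE hs₀ hZ h2
  exact irr_two ((th_virt s₀).comp H.subtype) ((th_sol hU F hE hs₀).res H) hr (by simpa using h1)
    hχ (pr_res hU F hE hs₀ H hχ)

/-- **Real zeros of order at most three, all irreducible characters.** -/
theorem ordd_irr_three (hU : Dom U) (hconj : ∀ s ∈ U, conj s ∈ U) (F : Fam G L)
    (hE : Entire U G L)
    (hc : ∀ (a : G → ℂ) (s : ℂ), L (fun g => conj (a g)) (conj s) = conj (L a s))
    {s₀ : ℂ} (hs₀ : s₀ ∈ U) (hs : s₀.im = 0) {Z : ℂ → ℂ}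
    (hZ : Cont U (L (ind (⊥ : Subgroup G) (fun _ => 1))) Z) (h3 : meromorphicOrderAt Z s₀ ≤ 3) :
    (∀ (H : Subgroup G), ∀ χ ∈ Irr H, -1 ≤ ordd U L s₀ (ind H χ)) ∧
    ∃ D : G →* ℂˣ, (∀ g, D g = 1 ∨ D g = -1) ∧ ∀ H : Subgroup G,
      0 ≤ ordd U L s₀ (ind H (fun h => ((D h : ℂˣ) : ℂ))) := by
  refine ⟨fun H χ hχ => ?_, (real_points hU hconj F hE hc hs₀ hs hZ h3).1⟩
  obtain ⟨r, hr⟩ := (th_sol hU F hE hs₀).exists_deg
  have h4 := th_one hU F hE hs₀
  rw [hr] at h4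
  have h5 : ordd U L s₀ (ind (⊥ : Subgroup G) (fun _ => 1)) = (r : ℤ) := by exact_mod_cast h4.symm
  have h6 : r ≤ 3 := by
    rw [ordd_eq hU F hZ hs₀, h5] at h3
    have : ((r : ℤ) : WithTop ℤ) ≤ ((3 : ℤ) : WithTop ℤ) := h3
    exact_mod_cast this
  by_cases h7 : r ≤ 2
  · exact (irr_two ((th_virt s₀).comp H.subtype) ((th_sol hU F hE hs₀).res H) h7 (by simpa using hr)
      hχ (pr_res hU F hE hs₀ H hχ)).1
  · have h8 : r = 3 := by omega
    subst h8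
    obtain ⟨D, -, -, hD⟩ := irr_three (th_virt s₀) (th_sol hU F hE hs₀) (by simpa using hr)
      (th_real hU hconj F hE hc hs₀ hs)
    exact hD H χ hχ _ (pr_res hU F hE hs₀ H hχ)

end

end Pool.Agent.E8helper84.AV
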